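import Pool.Agent.Helper59.VD.PolyA

open MeasureTheory Set Filter Topology
open scoped ENNReal

noncomputable section

namespace VD.M_A2

open VD.PolyA

theorem hIn_le (x : ℕ) : ∀ (l : List (ℕ × ℕ × ℕ)) (e : ℕ × ℕ × ℕ), e ∈ l →
    hIn x l ≤ (80000 * e.2.2 - e.1 * x) / e.2.1 := by
  intro l
  induction l with
  | nil => intro e he; simp at he
  | cons a l ih =>
    obtain ⟨dh, dx, c⟩ := a
    intro e he
    rw [hIn, mn_eq]
    simp only [List.mem_cons] at he
    rcases he with he | he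
    · subst he
      exact min_le_left _ _
    · exact (min_le_right _ _).trans (ih e he)

theorem hIn_eq (x : ℕ) : ∀ (l : List (ℕ × ℕ × ℕ)),
    hIn x l = 310960000 ∨ ∃ e ∈ l, hIn x l = (80000 * e.2.2 - e.1 * x) / e.2.1 := by
  intro l
  induction l with
  | nil => left; rfl
  | cons a l ih =>
    obtain ⟨dh, dx, c⟩ := a
    rw [hIn, mn_eq]
    rcases min_choice (Nat.div (Nat.sub (Nat.mul 80000 c) (Nat.mul dh x)) dx) (hIn x l) with h | h
    · right
      exact ⟨(dh, dx, c), by simp, h⟩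
    · rw [h]
      rcases ih with ih | ⟨e, he, ih⟩
      · left; exact ih
      · right; exact ⟨e, by simp [he], ih⟩

theorem viol_spec (x2 n0 n1 : ℕ) (hx2 : 0 < x2) : ∀ l : List (ℕ × ℕ), ∀ v ∈ l,
    6400000000 * v.1 * v.1 ≤ x2 →
    (6400000000 * (v.1 * v.1 + v.2 * v.2)) * x2 ≤
      viol x2 n0 n1 l * x2 + n0 * (x2 - 6400000000 * v.1 * v.1) +
        n1 * (6400000000 * v.1 * v.1) := by
  intro l
  induction l with
  | nil => intro v hv; simp at hv
  | cons a l ih =>
    obtain ⟨x, h⟩ := a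
    intro v hv hle
    rw [viol, mx_eq]
    simp only [List.mem_cons] at hv
    rcases hv with hv | hv
    · subst hv
      have hb : Nat.ble (Nat.mul (Nat.mul 6400000000 x) x) x2 = true := Nat.ble_eq.mpr hle
      rw [hb, cond_true]
      simp only at hle
      set S : ℕ := (6400000000 * (x * x + h * h)) * x2 - n0 * (x2 - 6400000000 * x * x)
        - n1 * (6400000000 * x * x) with hS
      have h1 : (S + (x2 - 1)) / x2 ≤ max ((S + (x2 - 1)) / x2) (viol x2 n0 n1 l) := le_max_left _ _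
      have h2 : S ≤ (S + (x2 - 1)) / x2 * x2 := by
        have h3 := Nat.div_add_mod (S + (x2 - 1)) x2
        have h3' := Nat.mod_lt (S + (x2 - 1)) hx2
        rw [mul_comm] at h3
        omega
      have h4 : S ≤ max ((S + (x2 - 1)) / x2) (viol x2 n0 n1 l) * x2 :=
        h2.trans (Nat.mul_le_mul_right _ h1)
      have h5 : (6400000000 * (x * x + h * h)) * x2 ≤ S + n0 * (x2 - 6400000000 * x * x)
        + n1 * (6400000000 * x * x) := by
        rw [hS]; omega
      refine h5.trans ?_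
      have h6 : S + n0 * (x2 - 6400000000 * x * x) + n1 * (6400000000 * x * x) ≤
        max ((S + (x2 - 1)) / x2) (viol x2 n0 n1 l) * x2 + n0 * (x2 - 6400000000 * x * x) +
          n1 * (6400000000 * x * x) := by omega
      exact h6
    · refine (ih v hv hle).trans ?_
      have : viol x2 n0 n1 l * x2 ≤ max (cond (Nat.ble (Nat.mul (Nat.mul 6400000000 x) x) x2)
        (Nat.div (Nat.add (Nat.sub (Nat.sub (Nat.mul (Nat.mul 6400000000 (Nat.add (Nat.mul x x)
          (Nat.mul h h))) x2) (Nat.mul n0 (Nat.sub x2 (Nat.mul (Nat.mul 6400000000 x) x))))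
          (Nat.mul n1 (Nat.mul (Nat.mul 6400000000 x) x))) (Nat.sub x2 1)) x2) 0)
          (viol x2 n0 n1 l) * x2 := Nat.mul_le_mul_right _ (le_max_right _ _)
      omega

end VD.M_A2

namespace VD

open VD.M_A2 VD.PolyA

/-- polygon slices vs chord inequality (tall) -/
theorem mA2 (hP0 : StP0) : StA2 := by
  intro R1 hR1 hR2 hnn
  obtain ⟨-, -, hPb, -, hPs, hPt, -⟩ := hP0
  obtain ⟨e, he⟩ : ∃ e, e = viol ((mkT R1).xT * (mkT R1).xT) (310960000 * 310960000)
    ((mkT R1).xT * (mkT R1).xT + ((mkT R1).zl + 1) * ((mkT R1).zl + 1)) Vs := ⟨_, rfl⟩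
  have hxT : (mkT R1).xT = 8 * R1 * 6475 := rfl
  have hzl : (mkT R1).zl = hIn (mkT R1).xT Es := rfl
  have hn0e : (mkT R1).n0 = 310960000 * 310960000 + e := by rw [he]; rfl
  have hn1e : (mkT R1).n1 = (mkT R1).xT * (mkT R1).xT + ((mkT R1).zl + 1) * ((mkT R1).zl + 1) + e := by
    rw [he]; rfl
  generalize mkT R1 = P at *
  have hx1 : P.xT ≤ 518000000 := by omega
  have hx2 : 51800 ≤ P.xT := by omega
  -- the edge inequalities at `(xT, zl)`
  have hedge : ∀ e ∈ Es, e.1 * P.xT + e.2.1 * P.zl ≤ 80000 * e.2.2 := by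
    intro e he
    have h1 := hIn_le P.xT Es e he
    rw [← hzl] at h1
    obtain ⟨a1, a2, a3, a4, a5⟩ := e_fact e he
    rw [Nat.le_div_iff_mul_le a2] at h1
    have h2 : e.1 * P.xT ≤ 80000 * e.2.2 := by
      calc e.1 * P.xT ≤ e.1 * 518000000 := Nat.mul_le_mul_left _ hx1
        _ = 80000 * (e.1 * 6475) := by ring
        _ ≤ 80000 * e.2.2 := Nat.mul_le_mul_left _ a5
    have h3 : P.zl * e.2.1 = e.2.1 * P.zl := mul_comm _ _
    omega
  have hzl1 : P.zl + 1 ≤ 310960000 := by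
    have h := hedge (48, 896, 3482752) (by decide)
    simp only at h
    omega
  -- last part
  have hlow : ∀ z : ℝ × ℝ, 0 ≤ z.1 → 0 ≤ z.2 → g z = 1 → 80000 * z.1 ≤ P.xT →
      (P.zl : ℝ) ≤ 80000 * z.2 := by
    intro z hz1 hz2 hg hy
    by_contra hc
    push Not at hc
    set w : ℝ × ℝ := ((P.xT : ℝ) / 80000, (P.zl : ℝ) / 80000) with hw
    have hw1 : 0 ≤ w.1 := by simp only [hw]; positivity
    have hgw : g w ≤ 1 := by
      rw [g_le_one_iff w hw1]
      intro e he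
      have h := hedge e he
      have h' : (e.1 : ℝ) * P.xT + e.2.1 * P.zl ≤ 80000 * e.2.2 := by exact_mod_cast h
      simp only [hw]
      linarith
    have := hPt z w hz2 (by rw [abs_of_nonneg hz1, abs_of_nonneg hw1]; simp only [hw]; linarith)
      (by simp only [hw]; linarith)
    linarith
  have hxcut : ∀ y : ℝ, y ≤ 3887 →
      (∀ e' ∈ Es, (e'.1 : ℝ) * ((P.xT : ℝ) / 80000) + e'.2.1 * y ≤ e'.2.2) →
      80000 * y < (P.zl : ℝ) + 1 := by
    intro x hx6 hx
    rcases hIn_eq P.xT Es with h | ⟨e', he', h⟩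
    · rw [← hzl] at h
      omega
    · rw [← hzl] at h
      obtain ⟨a1, a2, a3, a4, a5⟩ := e_fact e' he'
      have h1 : 80000 * e'.2.2 - e'.1 * P.xT < (P.zl + 1) * e'.2.1 := by
        rw [h]
        exact (Nat.div_lt_iff_lt_mul a2).mp (Nat.lt_succ_self _)
      have h2 : 80000 * e'.2.2 < (P.zl + 1) * e'.2.1 + e'.1 * P.xT := by omega
      have h3 : (80000 : ℝ) * e'.2.2 < ((P.zl : ℝ) + 1) * e'.2.1 + e'.1 * P.xT := by
        exact_mod_cast h2
      have h4 := hx e' he'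
      have h5 : (0 : ℝ) < e'.2.1 := by exact_mod_cast a2
      by_contra hc
      push Not at hc
      have : ((P.zl : ℝ) + 1) * e'.2.1 ≤ 80000 * x * e'.2.1 := mul_le_mul_of_nonneg_right hc h5.le
      linarith
  have hi : P.n1 ≤ P.n0 + P.xT ^ 2 := by
    rw [hn0e, hn1e]
    have := Nat.mul_le_mul hzl1 hzl1
    have h2 : P.xT ^ 2 = P.xT * P.xT := by ring
    omega
  refine ⟨hi, ?_, ?_, hlow⟩
  · rw [hn1e]
    have h2 : P.xT ^ 2 = P.xT * P.xT := by ring
    omega
  intro z hz1 hz2 hg hy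
  have hz3 : z.1 ≤ 6475 := by
    have h := (hPb z hz2).2.1
    have h2 := le_abs_self z.1
    linarith
  obtain ⟨t, ht, hty1, hty0⟩ := ex_x z.1 hz1 hz3
  obtain ⟨f1, f2, f3, f4, f5, f6, f7, f8, f9⟩ := tr_fact t ht
  obtain ⟨a1, a2, a3, a4, a5⟩ := e_fact t.2.2 f3
  -- abbreviations
  set xT : ℝ := (P.xT : ℝ) with hxTd
  set n0 : ℝ := (P.n0 : ℝ) with hn0
  set n1 : ℝ := (P.n1 : ℝ) with hn1
  set zl : ℝ := (P.zl : ℝ) with hzld
  have hxT0 : 0 ≤ xT := by positivity
  have hzl0 : 0 ≤ zl := by positivity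
  have hn0r : n0 = 310960000 * 310960000 + (e : ℝ) := by rw [hn0, hn0e]; push_cast; ring
  have hn1r : n1 = xT * xT + (zl + 1) * (zl + 1) + (e : ℝ) := by
    rw [hn1, hn1e, hxTd, hzld]; push_cast; ring
  have hir : n1 ≤ n0 + xT ^ 2 := by rw [hn1, hn0, hxTd]; exact_mod_cast hi
  have hp : 0 ≤ xT ^ 2 := by positivity
  have hq : 0 ≤ xT ^ 2 + n0 - n1 := by linarith
  -- vertices
  have hvert : ∀ v ∈ Vs, 80000 * v.1 ≤ P.xT →
      xT ^ 2 * (80000 * (v.2 : ℝ)) ^ 2 + (xT ^ 2 + n0 - n1) * (80000 * (v.1 : ℝ)) ^ 2 ≤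
        xT ^ 2 * n0 := by
    intro v hv hvy
    have hle : 6400000000 * v.1 * v.1 ≤ P.xT * P.xT := by
      calc 6400000000 * v.1 * v.1 = (80000 * v.1) * (80000 * v.1) := by ring
        _ ≤ P.xT * P.xT := Nat.mul_le_mul hvy hvy
    have h := viol_spec (P.xT * P.xT) (310960000 * 310960000)
      (P.xT * P.xT + (P.zl + 1) * (P.zl + 1)) (Nat.mul_pos (by omega) (by omega)) Vs v hv hle
    rw [← he] at h
    have h' := (Nat.cast_le (α := ℝ)).mpr h
    push_cast [Nat.cast_sub hle] at h'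
    rw [hn0r, hn1r]
    rw [← hxTd, ← hzld] at h'
    linarith
  -- left end of the side
  have hV1 : 80000 * t.1.1 ≤ P.xT := by
    have : (80000 : ℝ) * t.1.1 ≤ P.xT := by linarith
    exact_mod_cast this
  have hF1 := hvert t.1 f1 hV1
  set dh : ℝ := (t.2.2.1 : ℝ) with hdh
  set dx : ℝ := (t.2.2.2.1 : ℝ) with hdx
  set c : ℝ := (t.2.2.2.2 : ℝ) with hc
  have hdh0 : 0 < dh := by rw [hdh]; exact_mod_cast a1
  have hdx0 : 0 < dx := by rw [hdx]; exact_mod_cast a2
  have f8' : dh * (t.1.1 : ℝ) + dx * (t.1.2 : ℝ) = c := by rw [hdh, hdx, hc]; exact_mod_cast f8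
  have f9' : dh * (t.2.1.1 : ℝ) + dx * (t.2.1.2 : ℝ) = c := by rw [hdh, hdx, hc]; exact_mod_cast f9
  have hzE : ∀ e ∈ Es, (e.1 : ℝ) * z.1 + e.2.1 * z.2 ≤ e.2.2 := (g_le_one_iff z hz1).mp hg
  have hzt : dh * z.1 + dx * z.2 ≤ c := hzE t.2.2 f3
  have hk : 80000 * z.2 + dh / dx * (80000 * z.1) ≤ 80000 * c / dx := by
    rw [← sub_nonneg]
    have : 80000 * c / dx - (80000 * z.2 + dh / dx * (80000 * z.1)) =
      80000 * (c - (dh * z.1 + dx * z.2)) / dx := by field_simp; ring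
    rw [this]
    apply div_nonneg _ hdx0.le
    linarith
  have hF1' : xT ^ 2 * (80000 * c / dx - dh / dx * (80000 * (t.1.1 : ℝ))) ^ 2 +
      (xT ^ 2 + n0 - n1) * (80000 * (t.1.1 : ℝ)) ^ 2 ≤ xT ^ 2 * n0 := by
    have : 80000 * c / dx - dh / dx * (80000 * (t.1.1 : ℝ)) = 80000 * (t.1.2 : ℝ) := by
      rw [← f8']; field_simp; ring
    rw [this]; exact hF1
  have hgoal : xT ^ 2 * (80000 * z.2) ^ 2 + (xT ^ 2 + n0 - n1) * (80000 * z.1) ^ 2 ≤
      xT ^ 2 * n0 := by
    rcases le_or_gt (80000 * t.2.1.1) P.xT with h0 | h0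
    · -- right end is a vertex
      have hF0 := hvert t.2.1 f2 h0
      refine seg hp hq (by positivity) hk (by linarith)
        (show 80000 * z.1 ≤ 80000 * (t.2.1.1 : ℝ) by linarith) ?_ hF1'
      have : 80000 * c / dx - dh / dx * (80000 * (t.2.1.1 : ℝ)) = 80000 * (t.2.1.2 : ℝ) := by
        rw [← f9']; field_simp; ring
      rw [this]; exact hF0
    · refine seg hp hq (by positivity) hk (by linarith) (show 80000 * z.1 ≤ xT from hy) ?_ hF1'
      -- the point of the side at abscissa `xT`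
      set y : ℝ := (80000 * c / dx - dh / dx * xT) / 80000 with hyd
      have hh0 : xT < 80000 * (t.2.1.1 : ℝ) := by rw [hxTd]; exact_mod_cast h0
      have hh1 : 80000 * (t.1.1 : ℝ) ≤ xT := by linarith
      have hxe : dh * (xT / 80000) + dx * y = c := by
        rw [hyd]; field_simp; ring
      have f4' : (t.1.1 : ℝ) < t.2.1.1 := by exact_mod_cast f4
      have hy0 : (t.2.1.2 : ℝ) ≤ y := by
        have u1 : dh * (xT / 80000) ≤ dh * (t.2.1.1 : ℝ) :=
          mul_le_mul_of_nonneg_left (by linarith) hdh0.le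
        have : dx * (t.2.1.2 : ℝ) ≤ dx * y := by linarith
        exact le_of_mul_le_mul_left this hdx0
      have hy1 : y ≤ (t.1.2 : ℝ) := by
        have u1 : dh * (t.1.1 : ℝ) ≤ dh * (xT / 80000) :=
          mul_le_mul_of_nonneg_left (by linarith) hdh0.le
        have : dx * y ≤ dx * (t.1.2 : ℝ) := by linarith
        exact le_of_mul_le_mul_left this hdx0
      have h6 : t.1.2 ≤ 3887 := by
        have := ve_fact t.1 f1 (48, 896, 3482752) (by decide)
        simp only at this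
        omega
      have h6' : (t.1.2 : ℝ) ≤ 3887 := by exact_mod_cast h6
      have hcut := hxcut y (hy1.trans h6') (by
        intro e he
        have g0 := ve_fact t.1 f1 e he
        have g1 := ve_fact t.2.1 f2 e he
        have g0' : (e.1 : ℝ) * t.1.1 + e.2.1 * t.1.2 ≤ e.2.2 := by exact_mod_cast g0
        have g1' : (e.1 : ℝ) * t.2.1.1 + e.2.1 * t.2.1.2 ≤ e.2.2 := by exact_mod_cast g1
        -- convex combination
        have hd : (0 : ℝ) < (t.2.1.1 : ℝ) - t.1.1 := by linarith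
        have k1 : ((t.2.1.1 : ℝ) - t.1.1) * (xT / 80000) =
          (xT / 80000 - t.1.1) * t.2.1.1 + (t.2.1.1 - xT / 80000) * t.1.1 := by ring
        have k2 : ((t.2.1.1 : ℝ) - t.1.1) * y =
          (xT / 80000 - t.1.1) * t.2.1.2 + (t.2.1.1 - xT / 80000) * t.1.2 := by
          have : dx * (((t.2.1.1 : ℝ) - t.1.1) * y) =
            dx * ((xT / 80000 - t.1.1) * t.2.1.2 + (t.2.1.1 - xT / 80000) * t.1.2) := by
            have w0 : dx * y = c - dh * (xT / 80000) := by linarith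
            have w1 : dx * (t.1.2 : ℝ) = c - dh * t.1.1 := by linarith
            have w2 : dx * (t.2.1.2 : ℝ) = c - dh * t.2.1.1 := by linarith
            calc dx * (((t.2.1.1 : ℝ) - t.1.1) * y) = ((t.2.1.1 : ℝ) - t.1.1) * (dx * y) := by ring
              _ = (xT / 80000 - t.1.1) * (dx * (t.2.1.2 : ℝ)) +
                  (t.2.1.1 - xT / 80000) * (dx * (t.1.2 : ℝ)) := by rw [w0, w1, w2]; ring
              _ = _ := by ring
          exact mul_left_cancel₀ hdx0.ne' this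
        have k3 : ((t.2.1.1 : ℝ) - t.1.1) * ((e.1 : ℝ) * (xT / 80000) + e.2.1 * y) ≤
            ((t.2.1.1 : ℝ) - t.1.1) * e.2.2 := by
          have m0 := mul_le_mul_of_nonneg_left g1' (show 0 ≤ xT / 80000 - (t.1.1 : ℝ) by linarith)
          have m1 := mul_le_mul_of_nonneg_left g0' (show 0 ≤ (t.2.1.1 : ℝ) - xT / 80000 by linarith)
          have : ((t.2.1.1 : ℝ) - t.1.1) * ((e.1 : ℝ) * (xT / 80000) + e.2.1 * y) =
            (xT / 80000 - (t.1.1 : ℝ)) * ((e.1 : ℝ) * t.2.1.1 + e.2.1 * t.2.1.2) +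
            ((t.2.1.1 : ℝ) - xT / 80000) * ((e.1 : ℝ) * t.1.1 + e.2.1 * t.1.2) := by
            linear_combination (e.1 : ℝ) * k1 + (e.2.1 : ℝ) * k2
          rw [this]
          linarith
        exact le_of_mul_le_mul_left k3 hd)
      have hxx : 80000 * c / dx - dh / dx * xT = 80000 * y := by rw [hyd]; ring
      rw [hxx]
      have hy00 : 0 ≤ y := le_trans (by positivity) hy0
      have hsq : (80000 * y) ^ 2 ≤ (zl + 1) ^ 2 := pow_le_pow_left₀ (by positivity) hcut.le 2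
      have m1 := mul_le_mul_of_nonneg_left hsq hp
      have m2 : 0 ≤ xT ^ 2 * (e : ℝ) := by positivity
      have m3 : xT ^ 2 * (zl + 1) ^ 2 + (xT ^ 2 + n0 - n1) * xT ^ 2 = xT ^ 2 * n0 - xT ^ 2 * e := by
        rw [hn1r]; ring
      linarith
  have hgoal2 : 80000 ^ 2 * (z.1 ^ 2 + z.2 ^ 2) * xT ^ 2 ≤
      n0 * (xT ^ 2 - (80000 * z.1) ^ 2) + n1 * (80000 * z.1) ^ 2 := by
    linarith
  exact hgoal2

end VD
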