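import Pool.Agent.Helper50.VD.St

open MeasureTheory Set Filter Topology
open scoped ENNReal

noncomputable section

namespace VD.M_U0

theorem DM_dil {A : Set (ℝ × ℝ)} {r : ℝ} (h : DM A) (hr : 0 < r) : DM (dil r A) := by
  refine ⟨?_, ?_, ?_, ?_⟩
  · have : Measurable fun z : ℝ × ℝ => (z.1 / r, z.2 / r) := by fun_prop
    exact this h.meas
  · intro z hz
    have h1 : (0 : ℝ) < z.2 / r := h.sub hz
    have h2 := mul_pos h1 hr
    rw [div_mul_cancel₀ _ hr.ne'] at h2
    exact h2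
  · obtain ⟨R, hR⟩ := h.bdd
    refine ⟨r * R, fun z hz => ?_⟩
    obtain ⟨h1, h2, h3⟩ := hR hz
    simp only [abs_div, abs_of_pos hr] at h1 h2 h3
    rw [div_le_iff₀ hr] at h1 h3
    rw [lt_div_iff₀ hr] at h2
    refine ⟨?_, ?_, ?_⟩
    · linarith
    · simpa using h2
    · linarith
  · intro z hz w h1 h2 h3
    refine h.mono _ hz _ ?_ ?_ ?_
    · exact div_pos h1 hr
    · simp only [abs_div, abs_of_pos hr]
      exact div_le_div_of_nonneg_right h2 hr.le
    · exact div_le_div_of_nonneg_right h3 hr.le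

theorem Sol_dil (hK5 : StK5) {A : Set (ℝ × ℝ)} {W r : ℝ} (h : Sol A W) (hr : 0 < r) :
    Sol (dil r A) (r * W) := by
  refine ⟨DM_dil h.dm hr, ?_, mul_pos hr h.pos, ?_⟩
  · obtain ⟨z, hz⟩ := h.ne
    refine ⟨(r * z.1, r * z.2), ?_⟩
    change (r * z.1 / r, r * z.2 / r) ∈ A
    rw [mul_div_cancel_left₀ _ hr.ne', mul_div_cancel_left₀ _ hr.ne']
    exact hz
  · intro z hz
    have h1 := (hK5.1 A r h.dm.meas h.dm.sub hr).1 (z.1 / r, z.2 / r)
    have h2 : (r * (z.1 / r), r * (z.2 / r)) = z := by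
      ext
      · simp only; field_simp
      · simp only; field_simp
    simp only at h1
    rw [h2] at h1
    rw [h1]
    have h3 := h.iff (z.1 / r, z.2 / r) (div_pos hz hr)
    change (z.1 / r, z.2 / r) ∈ A ↔ _
    rw [h3]
    constructor
    · intro h; exact mul_lt_mul_of_pos_left h hr
    · intro h; exact lt_of_mul_lt_mul_left h hr.le

theorem closure_nonneg {S : Set (ℝ × ℝ)} (hS : S ⊆ Om) {z : ℝ × ℝ} (hz : z ∈ closure S) :
    0 ≤ z.2 := by
  have hc : IsClosed {z : ℝ × ℝ | 0 ≤ z.2} := isClosed_le continuous_const continuous_snd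
  have : closure S ⊆ {z : ℝ × ℝ | 0 ≤ z.2} :=
    closure_minimal (fun w hw => le_of_lt (show (0 : ℝ) < w.2 from hS hw)) hc
  exact this hz

theorem closure_ge (hK3 : StK3) {B S : Set (ℝ × ℝ)} (hB : DM B) {W : ℝ} (hS : S ⊆ Om)
    (h : ∀ z ∈ S, W ≤ phi B z) {z : ℝ × ℝ} (hz : z ∈ closure S) : W ≤ phi B z := by
  have hc := hK3 B hB.meas hB.sub hB.vol
  have hcl : IsClosed {z : ℝ × ℝ | 0 ≤ z.2} := isClosed_le continuous_const continuous_snd
  have h2 : IsClosed ({z : ℝ × ℝ | 0 ≤ z.2} ∩ phi B ⁻¹' Ici W) :=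
    hc.preimage_isClosed_of_isClosed hcl isClosed_Ici
  have : closure S ⊆ {z : ℝ × ℝ | 0 ≤ z.2} ∩ phi B ⁻¹' Ici W :=
    closure_minimal (fun w hw => ⟨le_of_lt (show (0 : ℝ) < w.2 from hS hw), h w hw⟩) h2
  exact (this hz).2

theorem closure_le (hK3 : StK3) {B S : Set (ℝ × ℝ)} (hB : DM B) {W : ℝ} (hS : S ⊆ Om)
    (h : ∀ z ∈ S, phi B z ≤ W) {z : ℝ × ℝ} (hz : z ∈ closure S) : phi B z ≤ W := by
  have hc := hK3 B hB.meas hB.sub hB.vol
  have hcl : IsClosed {z : ℝ × ℝ | 0 ≤ z.2} := isClosed_le continuous_const continuous_snd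
  have h2 : IsClosed ({z : ℝ × ℝ | 0 ≤ z.2} ∩ phi B ⁻¹' Iic W) :=
    hc.preimage_isClosed_of_isClosed hcl isClosed_Iic
  have : closure S ⊆ {z : ℝ × ℝ | 0 ≤ z.2} ∩ phi B ⁻¹' Iic W :=
    closure_minimal (fun w hw => ⟨le_of_lt (show (0 : ℝ) < w.2 from hS hw), h w hw⟩) h2
  exact (this hz).2

/-- the closure is symmetric -/
theorem closure_abs {S : Set (ℝ × ℝ)} (hS : ∀ z ∈ S, (-z.1, z.2) ∈ S) {z : ℝ × ℝ}
    (hz : z ∈ closure S) : (|z.1|, z.2) ∈ closure S := by
  rcases le_total 0 z.1 with h | h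
  · rw [abs_of_nonneg h]; exact hz
  · rw [abs_of_nonpos h]
    have hf : Continuous (fun z : ℝ × ℝ => ((-z.1, z.2) : ℝ × ℝ)) := by fun_prop
    exact map_mem_closure (f := fun z : ℝ × ℝ => ((-z.1, z.2) : ℝ × ℝ)) hf hz
      (fun w hw => hS w hw)

theorem g_abs (z : ℝ × ℝ) : g (|z.1|, z.2) = g z := by
  unfold g
  have : ∀ l : List (ℕ × ℕ × ℕ), gE (|z.1|, z.2) l = gE z l := by
    intro l
    induction l with
    | nil => rfl
    | cons a l ih =>
      obtain ⟨dh, dx, c⟩ := a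
      simp only [gE, abs_abs, ih]
  exact this Es

/-- `B` contains a box -/
theorem ex_box (hK3 : StK3) {B : Set (ℝ × ℝ)} {W : ℝ} (h : Sol B W) :
    ∃ a : ℝ, 0 < a ∧ ∀ z : ℝ × ℝ, 0 < z.2 → |z.1| ≤ a → z.2 ≤ a → z ∈ B := by
  obtain ⟨z, hz⟩ := h.ne
  have hz2 : 0 < z.2 := h.dm.sub hz
  have hc := hK3 B h.dm.meas h.dm.sub h.dm.vol
  have h1 : ContinuousAt (phi B) z := by
    apply hc.continuousAt
    exact mem_of_superset (isOpen_Om.mem_nhds hz2)
      (fun w hw => le_of_lt (show (0 : ℝ) < w.2 from hw))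
  have h2 : ∀ᶠ w in 𝓝 z, W < phi B w :=
    h1.eventually (lt_mem_nhds ((h.iff z hz2).mp hz))
  have h3 : ∀ᶠ w in 𝓝 z, w ∈ Om := isOpen_Om.mem_nhds hz2
  have h4 : ∀ᶠ w in 𝓝 z, w ∈ B := by
    filter_upwards [h2, h3] with w a b
    exact (h.iff w b).mpr a
  rw [Metric.eventually_nhds_iff] at h4
  obtain ⟨ε, hε, h4⟩ := h4
  -- the point `z` moved outwards
  set w : ℝ × ℝ := (if 0 ≤ z.1 then z.1 + ε / 2 else z.1 - ε / 2, z.2) with hw
  have hwB : w ∈ B := by
    apply h4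
    rw [Prod.dist_eq]
    simp only [hw, dist_self]
    apply max_lt _ hε
    split_ifs
    · rw [Real.dist_eq, add_sub_cancel_left, abs_of_pos (by linarith)]; linarith
    · rw [Real.dist_eq]
      have : z.1 - ε / 2 - z.1 = -(ε / 2) := by ring
      rw [this, abs_neg, abs_of_pos (by linarith)]; linarith
  have hw1 : ε / 2 ≤ |w.1| := by
    simp only [hw]
    split_ifs with h0
    · rw [abs_of_nonneg (by linarith)]; linarith
    · push Not at h0
      rw [abs_of_neg (by linarith)]; linarith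
  refine ⟨min (ε / 2) z.2, lt_min (by linarith) hz2, ?_⟩
  intro v hv1 hv2 hv3
  exact h.dm.mono w hwB v hv1 ((hv2.trans (min_le_left _ _)).trans hw1)
    (hv3.trans (min_le_right _ _))

end VD.M_U0

namespace VD

open VD.M_U0

/-- existence of a contact configuration (compactness) -/
theorem mU0 (hK0 : StK0) (hK2 : StK2) (hK3 : StK3) (hK5 : StK5) (hP0 : StP0) : StU0 := by
  intro A W hA
  obtain ⟨gc, gh, gb, gm, -, -, -⟩ := hP0
  -- supremum of the gauge
  have hbdd : BddAbove (g '' A) := by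
    obtain ⟨R, hR⟩ := hA.dm.bdd
    refine ⟨R / 6475 + R / 3887, ?_⟩
    rintro _ ⟨z, hz, rfl⟩
    obtain ⟨h1, h2, h3⟩ := hR hz
    have h4 := (gb z h2.le).2.2.2
    have h5 : |z.1| / 6475 ≤ R / 6475 := by linarith
    have h6 : z.2 / 3887 ≤ R / 3887 := by linarith
    linarith
  obtain ⟨z0, hz0⟩ := hA.ne
  have hz02 : 0 < z0.2 := hA.dm.sub hz0
  set s : ℝ := sSup (g '' A) with hs
  have hle : ∀ z ∈ A, g z ≤ s := fun z hz => le_csSup hbdd ⟨z, hz, rfl⟩
  have hs0 : 0 < s := by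
    have h1 := hle z0 hz0
    have h2 := (gb z0 hz02.le).2.2.1
    linarith
  have hr : 0 < 1 / s := by positivity
  refine ⟨1 / s, hr, Sol_dil hK5 hA hr, ?_⟩
  have hB := Sol_dil hK5 hA hr
  set B := dil (1 / s) A with hBd
  set W' := 1 / s * W with hW'
  -- gauge on B
  have hBout : ∀ z ∈ B, g z ≤ 1 := by
    intro z hz
    have h1 := hle _ hz
    have hz2 : 0 < z.2 := hB.dm.sub hz
    have h2 := gh s (z.1, z.2) hs0.le
    have h3 : (z.1 / (1 / s), z.2 / (1 / s)) = (s * z.1, s * z.2) := by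
      simp [div_eq_mul_inv, mul_comm]
    rw [h3] at h1
    simp only at h2
    rw [h2] at h1
    have : s * g z ≤ s * 1 := by simpa using h1
    exact le_of_mul_le_mul_left this hs0
  have hBsup : ∀ c : ℝ, (∀ z ∈ B, g z ≤ c) → 1 ≤ c := by
    intro c hc
    have h1 : s ≤ s * c := by
      apply csSup_le (show (g '' A).Nonempty from ⟨g z0, z0, hz0, rfl⟩)
      rintro _ ⟨z, hz, rfl⟩
      have hzB : (1 / s * z.1, 1 / s * z.2) ∈ B := by
        change (1 / s * z.1 / (1 / s), 1 / s * z.2 / (1 / s)) ∈ A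
        rw [mul_div_cancel_left₀ _ hr.ne', mul_div_cancel_left₀ _ hr.ne']
        exact hz
      have h2 := hc _ hzB
      rw [gh (1 / s) z hr.le] at h2
      have h3 := mul_le_mul_of_nonneg_left h2 hs0.le
      have h4 : s * (1 / s * g z) = g z := by field_simp
      rwa [h4] at h3
    have h2 : s * 1 ≤ s * c := by simpa using h1
    exact le_of_mul_le_mul_left h2 hs0
  -- p
  have hcomp : IsCompact (closure B) := by
    obtain ⟨R, hR⟩ := hB.dm.bdd
    apply Bornology.IsBounded.isCompact_closure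
    apply Bornology.IsBounded.subset _ hR
    apply Bornology.IsBounded.subset (Metric.isBounded_Icc ((-R, 0) : ℝ × ℝ) (R, R))
    intro z hz
    obtain ⟨h1, h2, h3⟩ := hz
    rw [abs_le] at h1
    exact ⟨⟨h1.1, h2.le⟩, ⟨h1.2, h3⟩⟩
  obtain ⟨p', hp'c, hp'm⟩ := hcomp.exists_isMaxOn (hB.ne.closure) gc.continuousOn
  have hgp' : g p' = 1 := by
    apply le_antisymm
    · have hcl : IsClosed {z : ℝ × ℝ | g z ≤ 1} := isClosed_le gc continuous_const
      exact closure_minimal hBout hcl hp'c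
    · exact hBsup _ (fun z hz => hp'm (subset_closure hz))
  have hsymB : ∀ z ∈ B, (-z.1, z.2) ∈ B := fun z hz => hB.dm.symm hz
  have hsymC : ∀ z ∈ Om \ B, (-z.1, z.2) ∈ Om \ B := by
    intro z hz
    refine ⟨hz.1, fun hc => hz.2 ?_⟩
    have := hB.dm.symm hc
    simpa using this
  -- q
  have hg0 : g (0, 3887) = 1 := by
    have h := gb (0, 3887) (by norm_num)
    simp only at h
    norm_num at h
    linarith [h.2.1, h.2.2]
  have hw : ∀ δ : ℝ, 0 < δ → ((0, (1 + δ) * 3887) : ℝ × ℝ) ∈ Om \ B ∧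
      g ((0, (1 + δ) * 3887) : ℝ × ℝ) = 1 + δ := by
    intro δ hδ
    have h1 := gh (1 + δ) (0, 3887) (by linarith)
    simp only [mul_zero] at h1
    rw [hg0, mul_one] at h1
    refine ⟨⟨?_, fun hc => ?_⟩, h1⟩
    · change (0 : ℝ) < (1 + δ) * 3887
      positivity
    · have := hBout _ hc
      rw [h1] at this
      linarith
  have hK : IsCompact (closure (Om \ B) ∩ {z : ℝ × ℝ | g z ≤ 2}) := by
    have hcl : IsClosed (closure (Om \ B) ∩ {z : ℝ × ℝ | g z ≤ 2}) :=
      isClosed_closure.inter (isClosed_le gc continuous_const)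
    apply Metric.isCompact_of_isClosed_isBounded hcl
    apply Bornology.IsBounded.subset
      (Metric.isBounded_Icc ((-12950, 0) : ℝ × ℝ) (12950, 7774))
    intro z hz
    have hz2 := closure_nonneg sdiff_subset hz.1
    have h := gb z hz2
    have hg2 : g z ≤ 2 := hz.2
    have h1 : |z.1| ≤ 12950 := by linarith [h.2.1]
    have h3 : z.2 ≤ 7774 := by linarith [h.2.2.1]
    rw [abs_le] at h1
    exact ⟨⟨h1.1, hz2⟩, ⟨h1.2, h3⟩⟩
  have hKne : (closure (Om \ B) ∩ {z : ℝ × ℝ | g z ≤ 2}).Nonempty := by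
    obtain ⟨h1, h2⟩ := hw 1 one_pos
    refine ⟨_, subset_closure h1, ?_⟩
    change g _ ≤ 2
    rw [h2]; norm_num
  obtain ⟨q', hq'K, hq'm⟩ := hK.exists_isMinOn hKne gc.continuousOn
  have hmin : ∀ z ∈ closure (Om \ B), g q' ≤ g z := by
    intro z hz
    rcases le_or_gt (g z) 2 with h | h
    · exact hq'm ⟨hz, h⟩
    · have : g q' ≤ 2 := hq'K.2
      linarith
  have hρ1 : g q' ≤ 1 := by
    apply le_of_forall_pos_le_add
    intro δ hδ
    obtain ⟨h1, h2⟩ := hw δ hδ
    rw [← h2]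
    exact hmin _ (subset_closure h1)
  have hρ0 : 0 < g q' := by
    obtain ⟨a, ha, hbox⟩ := ex_box hK3 hB
    have hlow : ∀ z ∈ Om \ B, a / 6475 ≤ g z := by
      intro z hz
      have hz2 : 0 < z.2 := hz.1
      have h := gb z hz2.le
      by_contra hc
      push Not at hc
      apply hz.2
      apply hbox z hz2
      · have := h.2.1
        linarith
      · have := h.2.2.1
        have h0 := h.1
        linarith
    have hcl : IsClosed {z : ℝ × ℝ | a / 6475 ≤ g z} := isClosed_le continuous_const gc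
    have h2 : q' ∈ {z : ℝ × ℝ | a / 6475 ≤ g z} := closure_minimal hlow hcl hq'K.1
    have h3 : a / 6475 ≤ g q' := h2
    have : 0 < a / 6475 := by positivity
    linarith
  have hpc : (|p'.1|, p'.2) ∈ closure B := closure_abs hsymB hp'c
  have hqc : (|q'.1|, q'.2) ∈ closure (Om \ B) := closure_abs hsymC hq'K.1
  have hWp : W' ≤ phi B (|p'.1|, p'.2) :=
    closure_ge hK3 hB.dm hB.dm.sub (fun z hz => ((hB.iff z (hB.dm.sub hz)).mp hz).le) hpc
  have hWq : phi B (|q'.1|, q'.2) ≤ W' := by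
    apply closure_le hK3 hB.dm sdiff_subset _ hqc
    intro z hz
    by_contra hc
    push Not at hc
    exact hz.2 ((hB.iff z hz.1).mpr hc)
  refine ⟨g q', (|p'.1|, p'.2), (|q'.1|, q'.2), ?_, hWp⟩
  exact
    { dm := hB.dm
      hρ := hρ0
      hρ1 := hρ1
      out := hBout
      inn := fun z hz hg => by
        by_contra hc
        have := hmin z (subset_closure ⟨hz, hc⟩)
        linarith
      p1 := abs_nonneg _
      p2 := closure_nonneg hB.dm.sub hpc
      gp := by rw [g_abs]; exact hgp'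
      pc := hpc
      q1 := abs_nonneg _
      q2 := closure_nonneg sdiff_subset hqc
      gq := g_abs q'
      qc := hqc
      le := hWq.trans hWp }

end VD
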