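import Pool.Agent.Helper59.VD.PolyA

open MeasureTheory Set Filter Topology
open scoped ENNReal

noncomputable section

namespace VD.M_A1

open VD.PolyA

theorem xIn_le (s : ℕ) : ∀ (l : List (ℕ × ℕ × ℕ)) (e : ℕ × ℕ × ℕ), e ∈ l →
    xIn s l ≤ (100 * e.2.2 - e.2.1 * s) / e.1 := by
  intro l
  induction l with
  | nil => intro e he; simp at he
  | cons a l ih =>
    obtain ⟨dh, dx, c⟩ := a
    intro e he
    rw [xIn, mn_eq]
    simp only [List.mem_cons] at he
    rcases he with he | he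
    · subst he
      exact min_le_left _ _
    · exact (min_le_right _ _).trans (ih e he)

theorem xIn_eq (s : ℕ) : ∀ (l : List (ℕ × ℕ × ℕ)),
    xIn s l = 647500 ∨ ∃ e ∈ l, xIn s l = (100 * e.2.2 - e.2.1 * s) / e.1 := by
  intro l
  induction l with
  | nil => left; rfl
  | cons a l ih =>
    obtain ⟨dh, dx, c⟩ := a
    rw [xIn, mn_eq]
    rcases min_choice (Nat.div (Nat.sub (Nat.mul 100 c) (Nat.mul dx s)) dh) (xIn s l) with h | h
    · right
      exact ⟨(dh, dx, c), by simp, h⟩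
    · rw [h]
      rcases ih with ih | ⟨e, he, ih⟩
      · left; exact ih
      · right; exact ⟨e, by simp [he], ih⟩

theorem arcOk_spec (p : Pts) : ∀ l : List (ℕ × ℕ), arcOk p l = true → ∀ v ∈ l,
    p.yT + 1 ≤ 100 * v.2 ∨
      (10000 * (v.1 * v.1 + v.2 * v.2)) * (419256250000 - p.xP * p.xP) ≤
      p.nP * (419256250000 - 10000 * v.1 * v.1) +
        419256250000 * (10000 * v.1 * v.1 - p.xP * p.xP) := by
  intro l
  induction l with
  | nil => intro _ v hv; simp at hv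
  | cons a l ih =>
    obtain ⟨x, h⟩ := a
    intro hl v hv
    rw [arcOk, Bool.and_eq_true] at hl
    simp only [List.mem_cons] at hv
    rcases hv with hv | hv
    · subst hv
      have h1 := hl.1
      rw [Bool.or_eq_true, Nat.ble_eq, Nat.ble_eq] at h1
      exact h1
    · exact ih hl.2 v hv

end VD.M_A1

namespace VD

open VD.M_A1 VD.PolyA

/-- polygon slices vs chord inequality (wide), convexity between vertices -/
theorem mA1 (hP0 : StP0) : StA1 := by
  intro R1 hR1 hR2 harc hnP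
  obtain ⟨-, -, hPb, -, hPs, hPt, -⟩ := hP0
  have hyT : (mkPts R1).yT = (R1 * 3887 + 99) / 100 := rfl
  have hxT : (mkPts R1).xT = (R1 * 6475 + 99) / 100 := rfl
  have hxP : (mkPts R1).xP = xIn (mkPts R1).yT Es := rfl
  have hnPe : (mkPts R1).nP = ((mkPts R1).xP + 1) * ((mkPts R1).xP + 1) +
      (mkPts R1).yT * (mkPts R1).yT := rfl
  generalize mkPts R1 = P at *
  have hy1 : P.yT ≤ 388700 := by omega
  have hy2 : 39 ≤ P.yT := by omega
  -- the edge inequalities at `(xP, yT)`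
  have hedge : ∀ e ∈ Es, e.1 * P.xP + e.2.1 * P.yT ≤ 100 * e.2.2 := by
    intro e he
    have h1 := xIn_le P.yT Es e he
    rw [← hxP] at h1
    obtain ⟨a1, a2, a3, a4, a5⟩ := e_fact e he
    rw [Nat.le_div_iff_mul_le a1] at h1
    have h2 : e.2.1 * P.yT ≤ 100 * e.2.2 := by
      calc e.2.1 * P.yT ≤ e.2.1 * 388700 := Nat.mul_le_mul_left _ hy1
        _ = 100 * (e.2.1 * 3887) := by ring
        _ ≤ 100 * e.2.2 := Nat.mul_le_mul_left _ a4
    have h3 : P.xP * e.1 = e.1 * P.xP := mul_comm _ _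
    omega
  have hxP1 : P.xP < 647500 := by
    have h := hedge (191, 46, 1236725) (by decide)
    simp only at h
    omega
  -- second part
  have hlow : ∀ z : ℝ × ℝ, 0 ≤ z.1 → 0 ≤ z.2 → g z = 1 → 100 * z.2 ≤ P.yT →
      (P.xP : ℝ) ≤ 100 * z.1 := by
    intro z hz1 hz2 hg hy
    by_contra hc
    push Not at hc
    set w : ℝ × ℝ := ((P.xP : ℝ) / 100, (P.yT : ℝ) / 100) with hw
    have hw1 : 0 ≤ w.1 := by simp only [hw]; positivity
    have hgw : g w ≤ 1 := by
      rw [g_le_one_iff w hw1]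
      intro e he
      have h := hedge e he
      have h' : (e.1 : ℝ) * P.xP + e.2.1 * P.yT ≤ 100 * e.2.2 := by exact_mod_cast h
      simp only [hw]
      linarith
    have := hPs z w hz2 (by rw [abs_of_nonneg hz1, abs_of_nonneg hw1]; simp only [hw]; linarith)
      (by simp only [hw]; linarith)
    linarith
  have hxcut : ∀ e ∈ Es, ∀ x : ℝ, x ≤ 6475 →
      (∀ e' ∈ Es, (e'.1 : ℝ) * x + e'.2.1 * ((P.yT : ℝ) / 100) ≤ e'.2.2) →
      100 * x < (P.xP : ℝ) + 1 := by
    intro e he x hx6 hx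
    rcases xIn_eq P.yT Es with h | ⟨e', he', h⟩
    · rw [← hxP] at h
      omega
    · rw [← hxP] at h
      obtain ⟨a1, a2, a3, a4, a5⟩ := e_fact e' he'
      have h1 : 100 * e'.2.2 - e'.2.1 * P.yT < (P.xP + 1) * e'.1 := by
        rw [h]
        exact (Nat.div_lt_iff_lt_mul a1).mp (Nat.lt_succ_self _)
      have h2 : 100 * e'.2.2 < (P.xP + 1) * e'.1 + e'.2.1 * P.yT := by omega
      have h3 : (100 : ℝ) * e'.2.2 < ((P.xP : ℝ) + 1) * e'.1 + e'.2.1 * P.yT := by
        exact_mod_cast h2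
      have h4 := hx e' he'
      have h5 : (0 : ℝ) < e'.1 := by exact_mod_cast a1
      by_contra hc
      push Not at hc
      have : ((P.xP : ℝ) + 1) * e'.1 ≤ 100 * x * e'.1 := mul_le_mul_of_nonneg_right hc h5.le
      linarith
  refine ⟨hxP1, ?_, by omega, ?_, hlow⟩
  · rw [hnPe]
    calc P.xP ^ 2 ≤ (P.xP + 1) ^ 2 := Nat.pow_le_pow_left (Nat.le_succ _) 2
      _ = (P.xP + 1) * (P.xP + 1) := by ring
      _ ≤ _ := Nat.le_add_right _ _
  intro z hz1 hz2 hg hy
  have hz3 : z.2 ≤ 3887 := by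
    have h := (hPb z hz2).2.2.1
    linarith
  obtain ⟨t, ht, hty1, hty0⟩ := ex_y z.2 hz2 hz3
  obtain ⟨f1, f2, f3, f4, f5, f6, f7, f8, f9⟩ := tr_fact t ht
  obtain ⟨a1, a2, a3, a4, a5⟩ := e_fact t.2.2 f3
  -- abbreviations
  set a : ℝ := (P.xP : ℝ) with ha
  set n : ℝ := (P.nP : ℝ) with hn
  set yT : ℝ := (P.yT : ℝ) with hyTd
  have ha0 : 0 ≤ a := by positivity
  have haL : a + 1 ≤ 647500 := by
    have : P.xP + 1 ≤ 647500 := hxP1
    rw [ha]; exact_mod_cast this
  have hne : n = (a + 1) ^ 2 + yT ^ 2 := by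
    rw [ha, hn, hyTd, hnPe]; push_cast; ring
  have hnL : n ≤ 647500 ^ 2 := by
    rw [hn]
    have : (P.nP : ℝ) ≤ (419256250000 : ℕ) := by exact_mod_cast hnP
    norm_num at this ⊢
    exact this
  have hyT0 : 0 ≤ yT := by positivity
  have hp : 0 ≤ n - a ^ 2 := by
    have : n - a ^ 2 = 2 * a + 1 + yT ^ 2 := by rw [hne]; ring
    rw [this]; positivity
  have hq : 0 ≤ (647500 : ℝ) ^ 2 - a ^ 2 :=
    sub_nonneg.mpr (pow_le_pow_left₀ ha0 (by linarith) 2)
  -- vertices
  have hvert : ∀ v ∈ Vs, 100 * v.2 ≤ P.yT → t.2.2.1 * v.1 + t.2.2.2.1 * v.2 = t.2.2.2.2 →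
      (n - a ^ 2) * (100 * (v.1 : ℝ)) ^ 2 + (647500 ^ 2 - a ^ 2) * (100 * (v.2 : ℝ)) ^ 2 ≤
        (n - a ^ 2) * 647500 ^ 2 := by
    intro v hv hvy hve
    have h1 : P.xP ≤ 100 * v.1 := by
      have h2 := hedge t.2.2 f3
      have h3 : t.2.2.2.1 * (100 * v.2) ≤ t.2.2.2.1 * P.yT := Nat.mul_le_mul_left _ hvy
      have h5 : t.2.2.2.1 * (100 * v.2) = 100 * (t.2.2.2.1 * v.2) := by ring
      have h6 : t.2.2.1 * (100 * v.1) = 100 * (t.2.2.1 * v.1) := by ring
      have h4 : t.2.2.1 * P.xP ≤ t.2.2.1 * (100 * v.1) := by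
        rw [h5] at h3
        rw [h6]
        omega
      exact Nat.le_of_mul_le_mul_left h4 a1
    have h6 : v.1 ≤ 6475 := by
      have := ve_fact v hv (191, 46, 1236725) (by decide)
      simp only at this
      omega
    rcases arcOk_spec P Vs harc v hv with h | h
    · omega
    · have e1 : P.xP * P.xP ≤ 10000 * v.1 * v.1 := by
        calc P.xP * P.xP ≤ (100 * v.1) * (100 * v.1) := Nat.mul_le_mul h1 h1
          _ = 10000 * v.1 * v.1 := by ring
      have e2 : 10000 * v.1 * v.1 ≤ 419256250000 := by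
        calc 10000 * v.1 * v.1 = 10000 * (v.1 * v.1) := by ring
          _ ≤ 10000 * (6475 * 6475) := Nat.mul_le_mul_left _ (Nat.mul_le_mul h6 h6)
          _ = 419256250000 := by norm_num
      have e3 : P.xP * P.xP ≤ 419256250000 := e1.trans e2
      have h' : ((10000 * (v.1 * v.1 + v.2 * v.2)) * (419256250000 - a * a) : ℝ) ≤
        n * (419256250000 - 10000 * v.1 * v.1) +
          419256250000 * (10000 * v.1 * v.1 - a * a) := by
        have := (Nat.cast_le (α := ℝ)).mpr h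
        push_cast [Nat.cast_sub e1, Nat.cast_sub e2, Nat.cast_sub e3] at this
        exact this
      linarith
  -- lower end of the side
  have hV1 : 100 * t.2.1.2 ≤ P.yT := by
    have : (100 : ℝ) * t.2.1.2 ≤ P.yT := by linarith
    exact_mod_cast this
  have hF1 := hvert t.2.1 f2 hV1 f9
  set dh : ℝ := (t.2.2.1 : ℝ) with hdh
  set dx : ℝ := (t.2.2.2.1 : ℝ) with hdx
  set c : ℝ := (t.2.2.2.2 : ℝ) with hc
  have hdh0 : 0 < dh := by rw [hdh]; exact_mod_cast a1
  have hdx0 : 0 < dx := by rw [hdx]; exact_mod_cast a2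
  have f8' : dh * (t.1.1 : ℝ) + dx * (t.1.2 : ℝ) = c := by rw [hdh, hdx, hc]; exact_mod_cast f8
  have f9' : dh * (t.2.1.1 : ℝ) + dx * (t.2.1.2 : ℝ) = c := by rw [hdh, hdx, hc]; exact_mod_cast f9
  have hzE : ∀ e ∈ Es, (e.1 : ℝ) * z.1 + e.2.1 * z.2 ≤ e.2.2 := (g_le_one_iff z hz1).mp hg
  have hzt : dh * z.1 + dx * z.2 ≤ c := hzE t.2.2 f3
  have hk : 100 * z.1 + dx / dh * (100 * z.2) ≤ 100 * c / dh := by
    rw [← sub_nonneg]
    have : 100 * c / dh - (100 * z.1 + dx / dh * (100 * z.2)) =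
      100 * (c - (dh * z.1 + dx * z.2)) / dh := by field_simp
    rw [this]
    apply div_nonneg _ hdh0.le
    linarith
  have hF1' : (n - a ^ 2) * (100 * c / dh - dx / dh * (100 * (t.2.1.2 : ℝ))) ^ 2 +
      (647500 ^ 2 - a ^ 2) * (100 * (t.2.1.2 : ℝ)) ^ 2 ≤ (n - a ^ 2) * 647500 ^ 2 := by
    have : 100 * c / dh - dx / dh * (100 * (t.2.1.2 : ℝ)) = 100 * (t.2.1.1 : ℝ) := by
      rw [← f9']; field_simp; ring
    rw [this]; exact hF1
  have hgoal : (n - a ^ 2) * (100 * z.1) ^ 2 + (647500 ^ 2 - a ^ 2) * (100 * z.2) ^ 2 ≤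
      (n - a ^ 2) * 647500 ^ 2 := by
    rcases le_or_gt (100 * t.1.2) P.yT with h0 | h0
    · -- upper end is a vertex
      have hF0 := hvert t.1 f1 h0 f8
      refine seg hp hq (by positivity) hk (by linarith) (show 100 * z.2 ≤ 100 * (t.1.2 : ℝ) by linarith)
        ?_ hF1'
      have : 100 * c / dh - dx / dh * (100 * (t.1.2 : ℝ)) = 100 * (t.1.1 : ℝ) := by
        rw [← f8']; field_simp; ring
      rw [this]; exact hF0
    · refine seg hp hq (by positivity) hk (by linarith) (show 100 * z.2 ≤ yT from hy) ?_ hF1'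
      -- the point of the side at height `yT`
      set x : ℝ := (100 * c / dh - dx / dh * yT) / 100 with hx
      have hh0 : yT < 100 * (t.1.2 : ℝ) := by rw [hyTd]; exact_mod_cast h0
      have hh1 : 100 * (t.2.1.2 : ℝ) ≤ yT := by linarith
      have hxe : dh * x + dx * (yT / 100) = c := by
        rw [hx]; field_simp; ring
      have f4' : (t.1.1 : ℝ) < t.2.1.1 := by exact_mod_cast f4
      have f5' : (t.2.1.2 : ℝ) < t.1.2 := by exact_mod_cast f5
      -- x between the abscissae of the vertices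
      have hx0 : (t.1.1 : ℝ) ≤ x := by
        have u1 : dx * (yT / 100) ≤ dx * (t.1.2 : ℝ) :=
          mul_le_mul_of_nonneg_left (by linarith) hdx0.le
        have : dh * (t.1.1 : ℝ) ≤ dh * x := by linarith
        exact le_of_mul_le_mul_left this hdh0
      have hx1 : x ≤ (t.2.1.1 : ℝ) := by
        have u1 : dx * (t.2.1.2 : ℝ) ≤ dx * (yT / 100) :=
          mul_le_mul_of_nonneg_left (by linarith) hdx0.le
        have : dh * x ≤ dh * (t.2.1.1 : ℝ) := by linarith
        exact le_of_mul_le_mul_left this hdh0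
      have h6 : t.2.1.1 ≤ 6475 := by
        have := ve_fact t.2.1 f2 (191, 46, 1236725) (by decide)
        simp only at this
        omega
      have h6' : (t.2.1.1 : ℝ) ≤ 6475 := by exact_mod_cast h6
      have hcut := hxcut t.2.2 f3 x (hx1.trans h6') (by
        intro e he
        have g0 := ve_fact t.1 f1 e he
        have g1 := ve_fact t.2.1 f2 e he
        have g0' : (e.1 : ℝ) * t.1.1 + e.2.1 * t.1.2 ≤ e.2.2 := by exact_mod_cast g0
        have g1' : (e.1 : ℝ) * t.2.1.1 + e.2.1 * t.2.1.2 ≤ e.2.2 := by exact_mod_cast g1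
        -- convex combination
        have hd : (0 : ℝ) < (t.1.2 : ℝ) - t.2.1.2 := by linarith
        have k1 : ((t.1.2 : ℝ) - t.2.1.2) * (yT / 100) =
          (yT / 100 - t.2.1.2) * t.1.2 + (t.1.2 - yT / 100) * t.2.1.2 := by ring
        have k2 : ((t.1.2 : ℝ) - t.2.1.2) * x =
          (yT / 100 - t.2.1.2) * t.1.1 + (t.1.2 - yT / 100) * t.2.1.1 := by
          have : dh * (((t.1.2 : ℝ) - t.2.1.2) * x) =
            dh * ((yT / 100 - t.2.1.2) * t.1.1 + (t.1.2 - yT / 100) * t.2.1.1) := by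
            have w0 : dh * x = c - dx * (yT / 100) := by linarith
            have w1 : dh * (t.1.1 : ℝ) = c - dx * t.1.2 := by linarith
            have w2 : dh * (t.2.1.1 : ℝ) = c - dx * t.2.1.2 := by linarith
            calc dh * (((t.1.2 : ℝ) - t.2.1.2) * x) = ((t.1.2 : ℝ) - t.2.1.2) * (dh * x) := by ring
              _ = (yT / 100 - t.2.1.2) * (dh * (t.1.1 : ℝ)) +
                  (t.1.2 - yT / 100) * (dh * (t.2.1.1 : ℝ)) := by rw [w0, w1, w2]; ring
              _ = _ := by ring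
          exact mul_left_cancel₀ hdh0.ne' this
        have k3 : ((t.1.2 : ℝ) - t.2.1.2) * ((e.1 : ℝ) * x + e.2.1 * (yT / 100)) ≤
            ((t.1.2 : ℝ) - t.2.1.2) * e.2.2 := by
          have m0 := mul_le_mul_of_nonneg_left g0' (show 0 ≤ yT / 100 - (t.2.1.2 : ℝ) by linarith)
          have m1 := mul_le_mul_of_nonneg_left g1' (show 0 ≤ (t.1.2 : ℝ) - yT / 100 by linarith)
          have : ((t.1.2 : ℝ) - t.2.1.2) * ((e.1 : ℝ) * x + e.2.1 * (yT / 100)) =
            (yT / 100 - (t.2.1.2 : ℝ)) * ((e.1 : ℝ) * t.1.1 + e.2.1 * t.1.2) +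
            ((t.1.2 : ℝ) - yT / 100) * ((e.1 : ℝ) * t.2.1.1 + e.2.1 * t.2.1.2) := by
            linear_combination (e.1 : ℝ) * k2 + (e.2.1 : ℝ) * k1
          rw [this]
          linarith
        exact le_of_mul_le_mul_left k3 hd)
      have hxx : 100 * c / dh - dx / dh * yT = 100 * x := by rw [hx]; ring
      rw [hxx]
      have hx00 : 0 ≤ x := le_trans (by positivity) hx0
      have hsq : (100 * x) ^ 2 ≤ (a + 1) ^ 2 := pow_le_pow_left₀ (by positivity) hcut.le 2
      have m1 := mul_le_mul_of_nonneg_left hsq hp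
      have m2 : 0 ≤ (2 * a + 1) * (647500 ^ 2 - n) := mul_nonneg (by linarith) (by linarith)
      have m3 : n - a ^ 2 = 2 * a + 1 + yT ^ 2 := by rw [hne]; ring
      have m4 : (647500 ^ 2 - a ^ 2) * yT ^ 2 + (n - a ^ 2) * (a + 1) ^ 2 =
          (n - a ^ 2) * 647500 ^ 2 - (2 * a + 1) * (647500 ^ 2 - n) := by
        rw [hne]; ring
      linarith
  have hgoal2 : 10 ^ 4 * (z.1 ^ 2 + z.2 ^ 2) * (647500 ^ 2 - a ^ 2) ≤
      n * (647500 ^ 2 - (100 * z.1) ^ 2) + 647500 ^ 2 * ((100 * z.1) ^ 2 - a ^ 2) := by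
    linarith
  exact hgoal2

end VD
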