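import Pool.Agent.Helper50.VD.St

open MeasureTheory Set Filter Topology
open scoped ENNReal

noncomputable section

namespace VD.PolyA

theorem gE_le_one_iff (z : ℝ × ℝ) (l : List (ℕ × ℕ × ℕ)) :
    gE z l ≤ 1 ↔ ∀ e ∈ l, ((e.1 : ℝ) * |z.1| + e.2.1 * z.2) / e.2.2 ≤ 1 := by
  induction l with
  | nil => simp [gE]
  | cons a l ih =>
    obtain ⟨dh, dx, c⟩ := a
    simp only [gE, max_le_iff, ih, List.mem_cons, forall_eq_or_imp]

/-- consecutive vertices and the edge between them -/
def Tr : List ((ℕ × ℕ) × (ℕ × ℕ) × (ℕ × ℕ × ℕ)) := List.zip Vs (List.zip Vs.tail Es)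

theorem tr_fact : ∀ t ∈ Tr, t.1 ∈ Vs ∧ t.2.1 ∈ Vs ∧ t.2.2 ∈ Es ∧ t.1.1 < t.2.1.1 ∧ t.2.1.2 < t.1.2 ∧
    t.2.2.1 + t.2.1.2 = t.1.2 ∧ t.2.2.2.1 + t.1.1 = t.2.1.1 ∧
    t.2.2.1 * t.1.1 + t.2.2.2.1 * t.1.2 = t.2.2.2.2 ∧
    t.2.2.1 * t.2.1.1 + t.2.2.2.1 * t.2.1.2 = t.2.2.2.2 := by
  decide +kernel

theorem ve_fact : ∀ v ∈ Vs, ∀ e ∈ Es, e.1 * v.1 + e.2.1 * v.2 ≤ e.2.2 := by
  decide +kernel

theorem e_fact : ∀ e ∈ Es, 0 < e.1 ∧ 0 < e.2.1 ∧ 0 < e.2.2 ∧ e.2.1 * 3887 ≤ e.2.2 ∧
    e.1 * 6475 ≤ e.2.2 := by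
  decide +kernel

theorem g_le_one_iff (z : ℝ × ℝ) (h1 : 0 ≤ z.1) :
    g z ≤ 1 ↔ ∀ e ∈ Es, (e.1 : ℝ) * z.1 + e.2.1 * z.2 ≤ e.2.2 := by
  unfold g
  rw [gE_le_one_iff]
  refine forall₂_congr fun e he => ?_
  have h := (e_fact e he).2.2.1
  have h' : (0 : ℝ) < e.2.2 := by exact_mod_cast h
  rw [div_le_one h', abs_of_nonneg h1]

theorem g_ge_one (z : ℝ × ℝ) (h1 : 0 ≤ z.1) (hg : 1 ≤ g z) :
    ∃ e ∈ Es, (e.2.2 : ℝ) ≤ (e.1 : ℝ) * z.1 + e.2.1 * z.2 := by
  have key : ∀ l : List (ℕ × ℕ × ℕ), (∀ e ∈ l, (0 : ℝ) < e.2.2) → 1 ≤ gE z l →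
      ∃ e ∈ l, (e.2.2 : ℝ) ≤ (e.1 : ℝ) * z.1 + e.2.1 * z.2 := by
    intro l
    induction l with
    | nil => intro _ h; simp [gE] at h; linarith
    | cons a l ih =>
      obtain ⟨dh, dx, c⟩ := a
      intro hp h
      simp only [gE, le_max_iff] at h
      rcases h with h | h
      · refine ⟨(dh, dx, c), by simp, ?_⟩
        have hc : (0 : ℝ) < c := hp (dh, dx, c) (by simp)
        rw [le_div_iff₀ hc, abs_of_nonneg h1] at h
        simpa using h
      · obtain ⟨e, he, h⟩ := ih (fun e he => hp e (by simp [he])) h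
        exact ⟨e, by simp [he], h⟩
  apply key Es _ hg
  intro e he
  have h := (e_fact e he).2.2.1
  exact_mod_cast h

/-- horizontal slices -/
theorem ex_y (y : ℝ) (h0 : 0 ≤ y) (h1 : y ≤ 3887) :
    ∃ t ∈ Tr, (t.2.1.2 : ℝ) ≤ y ∧ y ≤ (t.1.2 : ℝ) := by
  have key : ∀ t : (ℕ × ℕ) × (ℕ × ℕ) × (ℕ × ℕ × ℕ), t ∈ Tr → (t.2.1.2 : ℝ) ≤ y → y ≤ (t.1.2 : ℝ) →
      ∃ t ∈ Tr, (t.2.1.2 : ℝ) ≤ y ∧ y ≤ (t.1.2 : ℝ) := fun t a b c => ⟨t, a, b, c⟩
  rcases le_total 3839 y with h | h
  · exact key ((0,3887),(896,3839),(48, 896, 3482752)) (by decide) (by simpa using h)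
      (by simpa using h1)
  clear h1
  rcases le_total 3695 y with h2 | h2
  · exact key ((896,3839),(1776,3695),(144, 880, 3507344)) (by decide) (by simpa using h2)
      (by simpa using h)
  clear h
  rcases le_total 3461 y with h | h
  · exact key ((1776,3695),(2622,3461),(234, 846, 3541554)) (by decide) (by simpa using h)
      (by simpa using h2)
  clear h2
  rcases le_total 3144 y with h2 | h2
  · exact key ((2622,3461),(3415,3144),(317, 793, 3575747)) (by decide) (by simpa using h2)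
      (by simpa using h)
  clear h
  rcases le_total 2759 y with h | h
  · exact key ((3415,3144),(4135,2759),(385, 720, 3578455)) (by decide) (by simpa using h)
      (by simpa using h2)
  clear h2
  rcases le_total 2325 y with h2 | h2
  · exact key ((4135,2759),(4768,2325),(434, 633, 3541037)) (by decide) (by simpa using h2)
      (by simpa using h)
  clear h
  rcases le_total 1860 y with h | h
  · exact key ((4768,2325),(5304,1860),(465, 536, 3463320)) (by decide) (by simpa using h)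
      (by simpa using h2)
  clear h2
  rcases le_total 1388 y with h2 | h2
  · exact key ((5304,1860),(5738,1388),(472, 434, 3310728)) (by decide) (by simpa using h2)
      (by simpa using h)
  clear h
  rcases le_total 934 y with h | h
  · exact key ((5738,1388),(6067,934),(454, 329, 3061704)) (by decide) (by simpa using h)
      (by simpa using h2)
  clear h2
  rcases le_total 524 y with h2 | h2
  · exact key ((6067,934),(6295,524),(410, 228, 2700422)) (by decide) (by simpa using h2)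
      (by simpa using h)
  clear h
  rcases le_total 191 y with h | h
  · exact key ((6295,524),(6429,191),(333, 134, 2166451)) (by decide) (by simpa using h)
      (by simpa using h2)
  clear h2
  exact key ((6429,191),(6475,0),(191, 46, 1236725)) (by decide) (by simpa using h0)
      (by simpa using h)

/-- vertical slices -/
theorem ex_x (x : ℝ) (h0 : 0 ≤ x) (h1 : x ≤ 6475) :
    ∃ t ∈ Tr, (t.1.1 : ℝ) ≤ x ∧ x ≤ (t.2.1.1 : ℝ) := by
  have key : ∀ t : (ℕ × ℕ) × (ℕ × ℕ) × (ℕ × ℕ × ℕ), t ∈ Tr → (t.1.1 : ℝ) ≤ x → x ≤ (t.2.1.1 : ℝ) →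
      ∃ t ∈ Tr, (t.1.1 : ℝ) ≤ x ∧ x ≤ (t.2.1.1 : ℝ) := fun t a b c => ⟨t, a, b, c⟩
  rcases le_total x 896 with h | h
  · exact key ((0,3887),(896,3839),(48, 896, 3482752)) (by decide) (by simpa using h0)
      (by simpa using h)
  clear h0
  rcases le_total x 1776 with h2 | h2
  · exact key ((896,3839),(1776,3695),(144, 880, 3507344)) (by decide) (by simpa using h)
      (by simpa using h2)
  clear h
  rcases le_total x 2622 with h | h
  · exact key ((1776,3695),(2622,3461),(234, 846, 3541554)) (by decide) (by simpa using h2)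
      (by simpa using h)
  clear h2
  rcases le_total x 3415 with h2 | h2
  · exact key ((2622,3461),(3415,3144),(317, 793, 3575747)) (by decide) (by simpa using h)
      (by simpa using h2)
  clear h
  rcases le_total x 4135 with h | h
  · exact key ((3415,3144),(4135,2759),(385, 720, 3578455)) (by decide) (by simpa using h2)
      (by simpa using h)
  clear h2
  rcases le_total x 4768 with h2 | h2
  · exact key ((4135,2759),(4768,2325),(434, 633, 3541037)) (by decide) (by simpa using h)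
      (by simpa using h2)
  clear h
  rcases le_total x 5304 with h | h
  · exact key ((4768,2325),(5304,1860),(465, 536, 3463320)) (by decide) (by simpa using h2)
      (by simpa using h)
  clear h2
  rcases le_total x 5738 with h2 | h2
  · exact key ((5304,1860),(5738,1388),(472, 434, 3310728)) (by decide) (by simpa using h)
      (by simpa using h2)
  clear h
  rcases le_total x 6067 with h | h
  · exact key ((5738,1388),(6067,934),(454, 329, 3061704)) (by decide) (by simpa using h2)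
      (by simpa using h)
  clear h2
  rcases le_total x 6295 with h2 | h2
  · exact key ((6067,934),(6295,524),(410, 228, 2700422)) (by decide) (by simpa using h)
      (by simpa using h2)
  clear h
  rcases le_total x 6429 with h | h
  · exact key ((6295,524),(6429,191),(333, 134, 2166451)) (by decide) (by simpa using h2)
      (by simpa using h)
  clear h2
  exact key ((6429,191),(6475,0),(191, 46, 1236725)) (by decide) (by simpa using h)
      (by simpa using h1)

/-- a quadratic form on a segment with slope `k` -/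
theorem seg {p q M k C x y h0 h1 : ℝ} (hp : 0 ≤ p) (hq : 0 ≤ q) (hx : 0 ≤ x)
    (hk : x + k * y ≤ C) (hy1 : h1 ≤ y) (hy0 : y ≤ h0)
    (F0 : p * (C - k * h0) ^ 2 + q * h0 ^ 2 ≤ M) (F1 : p * (C - k * h1) ^ 2 + q * h1 ^ 2 ≤ M) :
    p * x ^ 2 + q * y ^ 2 ≤ M := by
  have hX : x ≤ C - k * y := by linarith
  have hX2 : x ^ 2 ≤ (C - k * y) ^ 2 := pow_le_pow_left₀ hx hX 2
  have h2 : p * x ^ 2 ≤ p * (C - k * y) ^ 2 := mul_le_mul_of_nonneg_left hX2 hp
  rcases eq_or_lt_of_le (hy1.trans hy0) with h | h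
  · have : y = h0 := le_antisymm hy0 (h ▸ hy1)
    subst this
    linarith
  · have hd : 0 < h0 - h1 := by linarith
    have key : (h0 - h1) * (p * (C - k * y) ^ 2 + q * y ^ 2) ≤ (h0 - h1) * M := by
      have e1 : (h0 - h1) * (p * (C - k * y) ^ 2 + q * y ^ 2) =
          (y - h1) * (p * (C - k * h0) ^ 2 + q * h0 ^ 2) +
          (h0 - y) * (p * (C - k * h1) ^ 2 + q * h1 ^ 2) -
          (p * k ^ 2 + q) * ((y - h1) * (h0 - y) * (h0 - h1)) := by ring
      have e2 : 0 ≤ (p * k ^ 2 + q) * ((y - h1) * (h0 - y) * (h0 - h1)) := by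
        have : 0 ≤ y - h1 := by linarith
        have : 0 ≤ h0 - y := by linarith
        positivity
      have e3 : (y - h1) * (p * (C - k * h0) ^ 2 + q * h0 ^ 2) ≤ (y - h1) * M :=
        mul_le_mul_of_nonneg_left F0 (by linarith)
      have e4 : (h0 - y) * (p * (C - k * h1) ^ 2 + q * h1 ^ 2) ≤ (h0 - y) * M :=
        mul_le_mul_of_nonneg_left F1 (by linarith)
      nlinarith
    have := le_of_mul_le_mul_left key hd
    linarith

end VD.PolyA
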